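import Pool.Agent.Zk58.EK.Cv

set_option autoImplicit false
set_option linter.unusedSectionVars false

/-!
First half of the module CV3: a subsequence along which the fractions converge to `0` or `1`.
-/

namespace Pool.Agent.Zk85.EKm

open Finset MeasureTheory ProbabilityTheory Filter Pool.Agent.Zk58.EK

open scoped BigOperators ENNReal Topology NNReal

lemma ae_summable {Ω : Type} [MeasurableSpace Ω] {P : Measure Ω} (g : ℕ → Ω → ℝ)
    (hg : ∀ k, Integrable (g k) P) (h0 : ∀ k ω, 0 ≤ g k ω) (c : ℝ)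
    (hs : ∀ k, ∫ ω, g k ω ∂P ≤ c * (1 / 2) ^ k) : ∀ᵐ ω ∂P, Summable fun k => g k ω := by
  have h1 : ∫⁻ ω, ∑' k, ENNReal.ofReal (g k ω) ∂P ≠ ∞ := by
    rw [lintegral_tsum fun k => (hg k).aemeasurable.ennreal_ofReal]
    have h2 : ∀ k, ∫⁻ ω, ENNReal.ofReal (g k ω) ∂P ≤ ENNReal.ofReal (c * (1 / 2) ^ k) := by
      intro k
      rw [← ofReal_integral_eq_lintegral_ofReal (hg k) (Eventually.of_forall (h0 k))]
      exact ENNReal.ofReal_le_ofReal (hs k)
    refine ne_top_of_le_ne_top ?_ (ENNReal.tsum_le_tsum h2)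
    exact ((summable_geometric_of_lt_one (by norm_num) (by norm_num)).mul_left c).tsum_ofReal_ne_top
  have h3 := ae_lt_top' (AEMeasurable.tsum fun k => (hg k).aemeasurable.ennreal_ofReal) h1
  filter_upwards [h3] with ω hω
  have h4 := ENNReal.summable_toReal hω.ne
  refine h4.congr fun k => ?_
  rw [ENNReal.toReal_ofReal (h0 k ω)]

lemma sub_ae {Ω ι : Type} [MeasurableSpace Ω] {P : Measure Ω} [IsProbabilityMeasure P] [Countable ι]
    (f : ℕ → ι → Ω → ℝ) (hm : ∀ n i, Measurable (f n i))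
    (hb : ∀ n i ω, 0 ≤ f n i ω ∧ f n i ω ≤ 1)
    (h : ∀ ε : ℝ, 0 < ε → ∃ n0 : ℕ, ∀ n ≥ n0, ∀ n' ≥ n0, ∀ i : ι,
      ∫ ω, |f n i ω - f n' i ω| ∂P ≤ ε ∧ ∫ ω, f n i ω * (1 - f n i ω) ∂P ≤ ε) :
    ∃ nk : ℕ → ℕ, StrictMono nk ∧ ∀ᵐ ω ∂P, ∀ i : ι,
      Tendsto (fun k => f (nk k) i ω) atTop (𝓝 0) ∨ Tendsto (fun k => f (nk k) i ω) atTop (𝓝 1) := by
  choose N hN using fun k : ℕ => h ((1 / 2) ^ k) (by positivity)
  set nk : ℕ → ℕ := fun k => (∑ j ∈ range (k + 1), N j) + k with hnk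
  have hmono : StrictMono nk := by
    refine strictMono_nat_of_lt_succ fun k => ?_
    simp only [hnk]
    rw [sum_range_succ _ (k + 1)]
    omega
  have hge : ∀ k, N k ≤ nk k := by
    intro k
    simp only [hnk]
    rw [sum_range_succ]
    omega
  have hge' : ∀ k, N k ≤ nk (k + 1) := fun k => (hge k).trans (hmono (Nat.lt_succ_self k)).le
  refine ⟨nk, hmono, ?_⟩
  have hint : ∀ n i, Integrable (f n i) P := fun n i =>
    Integrable.of_bound (hm n i).aestronglyMeasurable 1 (Eventually.of_forall fun ω => by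
      rw [Real.norm_eq_abs, abs_of_nonneg (hb n i ω).1]
      exact (hb n i ω).2)
  have hint2 : ∀ n i, Integrable (fun ω => f n i ω * (1 - f n i ω)) P := fun n i =>
    Integrable.of_bound ((hm n i).mul ((hm n i).const_sub 1)).aestronglyMeasurable 1
      (Eventually.of_forall fun ω => by
        have h1 := (hb n i ω).1
        have h2 := (hb n i ω).2
        rw [Real.norm_eq_abs, abs_of_nonneg (mul_nonneg h1 (by linarith))]
        nlinarith)
  rw [ae_all_iff]
  intro i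
  have hA := ae_summable (P := P) (fun k ω => |f (nk k) i ω - f (nk (k + 1)) i ω|)
    (fun k => ((hint _ _).sub (hint _ _)).abs) (fun k ω => abs_nonneg _) 1 (fun k => by
      rw [one_mul]
      exact (hN k (nk k) (hge k) (nk (k + 1)) (hge' k) i).1)
  have hB := ae_summable (P := P) (fun k ω => f (nk k) i ω * (1 - f (nk k) i ω))
    (fun k => hint2 _ _) (fun k ω => mul_nonneg (hb _ _ _).1 (by linarith [(hb (nk k) i ω).2])) 1
    (fun k => by
      rw [one_mul]
      exact (hN k (nk k) (hge k) (nk (k + 1)) (hge' k) i).2)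
  filter_upwards [hA, hB] with ω h1 h2
  have hc : CauchySeq fun k => f (nk k) i ω := by
    refine cauchySeq_of_summable_dist ?_
    simpa only [Real.dist_eq] using h1
  obtain ⟨L, hL⟩ := cauchySeq_tendsto_of_complete hc
  have h3 : Tendsto (fun k => f (nk k) i ω * (1 - f (nk k) i ω)) atTop (𝓝 (L * (1 - L))) :=
    hL.mul (hL.const_sub 1)
  have h4 := tendsto_nhds_unique h3 h2.tendsto_atTop_zero
  rcases mul_eq_zero.1 h4 with h5 | h5
  · left
    rwa [h5] at hL
  · right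
    have : L = 1 := by linarith
    rwa [this] at hL

lemma card_cube {d : ℕ} (c : Site d) (n : ℕ) : (cube c n).card = n ^ d := by
  unfold cube
  rw [Fintype.card_piFinset]
  simp

variable {d : ℕ} {S : Type} [MeasurableSpace S]

lemma frc_meas {ψ : S → ℝ} {sg : ℕ → Bond d → Set (Bond d → S)} (hsg : IsSg ψ sg) (n : ℕ) (i : Fin d) :
    Measurable (frc sg n i) := by
  unfold frc
  refine Measurable.div_const ?_ _
  refine Finset.measurable_fun_sum _ fun y _ => ?_
  exact (measurable_one.indicator (hsg.1 n (y, i))).comp (th_meas (-y))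

lemma frc_bd (sg : ℕ → Bond d → Set (Bond d → S)) (n : ℕ) (i : Fin d) (X : Bond d → S) :
    0 ≤ frc sg n i X ∧ frc sg n i X ≤ 1 := by
  unfold frc
  constructor
  · refine div_nonneg (sum_nonneg fun y _ => ?_) (by positivity)
    exact Set.indicator_nonneg (fun _ _ => zero_le_one) _
  · refine div_le_one_of_le₀ ?_ (by positivity)
    calc ∑ y ∈ cube (0 : Site d) n, (sg n (y, i)).indicator (1 : (Bond d → S) → ℝ) (th (-y) X)
        ≤ ∑ _y ∈ cube (0 : Site d) n, (1 : ℝ) := sum_le_sum fun y _ =>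
          Set.indicator_le_self' (fun _ _ => zero_le_one) _
      _ = (n : ℝ) ^ d := by
          rw [sum_const, card_cube, nsmul_eq_mul, mul_one]
          push_cast
          rfl

/-- **first half of CV3** -/
theorem t_CV3a (μ : Measure S) [IsProbabilityMeasure μ] (ψ : S → ℝ)
    (sg : ℕ → Bond d → Set (Bond d → S)) (hsg : IsSg ψ sg)
    (h : ∀ ε : ℝ, 0 < ε → ∃ n0 : ℕ, ∀ n ≥ n0, ∀ n' ≥ n0, ∀ i : Fin d,
        ∫ X, |frc sg n i X - frc sg n' i X| ∂(PX d μ) ≤ ε ∧
          ∫ X, frc sg n i X * (1 - frc sg n i X) ∂(PX d μ) ≤ ε) :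
    ∃ nk : ℕ → ℕ, StrictMono nk ∧ ∀ᵐ X ∂(PX d μ), ∀ (x : Site d) (i : Fin d),
      Tendsto (fun k => frc sg (nk k) i (th x X)) atTop (𝓝 0) ∨
        Tendsto (fun k => frc sg (nk k) i (th x X)) atTop (𝓝 1) := by
  obtain ⟨nk, hnk, hae⟩ := sub_ae (P := PX d μ) (fun n i X => frc sg n i X)
    (fun n i => frc_meas hsg n i) (fun n i X => frc_bd sg n i X) h
  refine ⟨nk, hnk, ?_⟩
  rw [ae_all_iff]
  intro x
  exact (th_mp μ x).quasiMeasurePreserving.ae hae

end Pool.Agent.Zk85.EKm
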